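import Mathlib

/-!
A counting form of the local lemma for events which depend on three coordinates of a uniform random
function `V → Fin D` (the counting argument of Rosenfeld).
-/

set_option autoImplicit false

namespace Pool.Agent.T6.H94.LLL

open Finset

variable {V : Type*} [Fintype V] [DecidableEq V] {D : ℕ}

/-- the function which is `b` on `T` and `b'` elsewhere -/
def mix (T : Finset V) (b b' : V → Fin D) : V → Fin D := fun v => if v ∈ T then b v else b' v

lemma mix_mix (T : Finset V) (b b' : V → Fin D) :
    mix T (mix T b b') (mix T b' b) = b := by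
  funext v
  by_cases hv : v ∈ T <;> simp [mix, hv]

lemma indep (T : Finset V) (P Q : (V → Fin D) → Prop) [DecidablePred P] [DecidablePred Q]
    (hP : ∀ b b' : V → Fin D, (∀ v ∈ T, b v = b' v) → (P b ↔ P b'))
    (hQ : ∀ b b' : V → Fin D, (∀ v, v ∉ T → b v = b' v) → (Q b ↔ Q b')) :
    (univ.filter fun b : V → Fin D => P b ∧ Q b).card * (univ : Finset (V → Fin D)).card =
      (univ.filter fun b : V → Fin D => P b).card * (univ.filter fun b : V → Fin D => Q b).card := by
  classical
  rw [← card_product, ← card_product]
  have h1 : ∀ b b' : V → Fin D, P (mix T b b') ↔ P b := fun b b' =>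
    hP _ _ fun v hv => by simp [mix, hv]
  have h2 : ∀ b b' : V → Fin D, Q (mix T b b') ↔ Q b' := fun b b' =>
    hQ _ _ fun v hv => by simp [mix, hv]
  refine card_nbij' (fun x => (mix T x.1 x.2, mix T x.2 x.1))
    (fun x => (mix T x.1 x.2, mix T x.2 x.1)) ?_ ?_ ?_ ?_
  · rintro ⟨b, b'⟩ hb
    simp only [coe_product, coe_filter, mem_univ, true_and, coe_univ, Set.mem_prod, Set.mem_setOf_eq,
      Set.mem_univ, and_true] at hb ⊢
    exact ⟨(h1 _ _).2 hb.1, (h2 _ _).2 hb.2⟩
  · rintro ⟨b, b'⟩ hb
    simp only [coe_product, coe_filter, mem_univ, true_and, coe_univ, Set.mem_prod, Set.mem_setOf_eq,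
      Set.mem_univ, and_true] at hb ⊢
    exact ⟨(h1 _ _).2 hb.1, (h2 _ _).2 hb.2⟩
  · rintro ⟨b, b'⟩ _
    simp only [mix_mix]
  · rintro ⟨b, b'⟩ _
    simp only [mix_mix]

variable {ι : Type*} [DecidableEq ι]

/-- no event with support in `S` happens -/
def good (E : Finset ι) (supp : ι → Finset V) (bad : ι → (V → Fin D) → Prop) (S : Finset V)
    (b : V → Fin D) : Prop := ∀ e ∈ E, supp e ⊆ S → ¬ bad e b

open Classical in
/-- the number of functions for which no event with support in `S` happens -/
noncomputable def cnt (E : Finset ι) (supp : ι → Finset V) (bad : ι → (V → Fin D) → Prop)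
    (S : Finset V) : ℝ := ((univ.filter fun b : V → Fin D => good E supp bad S b).card : ℝ)

open Classical in
theorem step (E : Finset ι) (supp : ι → Finset V) (bad : ι → (V → Fin D) → Prop) (p : ι → ℝ)
    (hdep : ∀ e ∈ E, ∀ b b' : V → Fin D, (∀ v ∈ supp e, b v = b' v) → (bad e b ↔ bad e b'))
    (hsupp : ∀ e ∈ E, (supp e).card = 3)
    (hp : ∀ e ∈ E, ((univ.filter fun b : V → Fin D => bad e b).card : ℝ) ≤
      p e * (univ : Finset (V → Fin D)).card)
    (hsum : ∀ v : V, ∑ e ∈ E.filter (fun e => v ∈ supp e), p e ≤ 1 / 8)
    (hT : 0 < (univ : Finset (V → Fin D)).card) :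
    ∀ n : ℕ, ∀ S : Finset V, S.card ≤ n → ∀ A : Finset V, A ⊆ S →
      cnt E supp bad A ≤ 2 ^ (S \ A).card * cnt E supp bad S := by
  intro n
  induction n with
  | zero =>
    intro S hS A hA
    have hS0 : S = ∅ := by simpa using hS
    subst hS0
    have hA0 : A = ∅ := by simpa using hA
    subst hA0
    simp
  | succ n ih =>
    intro S hS A hA
    rcases eq_or_ne A S with rfl | hne
    · simp
    obtain ⟨c, hcS, hcA⟩ : ∃ c ∈ S, c ∉ A := by
      by_contra hcon
      push Not at hcon
      exact hne (Subset.antisymm hA hcon)
    set S' := S.erase c with hS'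
    have hS'S : S' ⊆ S := erase_subset _ _
    have hcS' : c ∉ S' := notMem_erase _ _
    have hins : insert c S' = S := insert_erase hcS
    have hcard' : S'.card ≤ n := by
      rw [hS', card_erase_of_mem hcS]; omega
    have hAS' : A ⊆ S' := fun v hv => by
      rw [hS', mem_erase]
      exact ⟨fun h => hcA (h ▸ hv), hA hv⟩
    have h1 := ih S' hcard' A hAS'
    -- the one step inequality
    have key : cnt E supp bad S' ≤ 2 * cnt E supp bad S := by
      set F := E.filter (fun e => c ∈ supp e) with hF
      have hcover : cnt E supp bad S' ≤ cnt E supp bad S +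
          ∑ e ∈ F.filter (fun e => supp e ⊆ S), ((univ.filter fun b : V → Fin D =>
            good E supp bad S' b ∧ bad e b).card : ℝ) := by
        unfold cnt
        have hsub : (univ.filter fun b : V → Fin D => good E supp bad S' b) ⊆
            (univ.filter fun b : V → Fin D => good E supp bad S b) ∪
              (F.filter (fun e => supp e ⊆ S)).biUnion
                (fun e => univ.filter fun b : V → Fin D => good E supp bad S' b ∧ bad e b) := by
          intro b hb
          rw [mem_filter] at hb
          rw [mem_union, mem_biUnion]
          by_cases hg : good E supp bad S b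
          · left
            rw [mem_filter]
            exact ⟨mem_univ _, hg⟩
          · right
            unfold good at hg
            push Not at hg
            obtain ⟨e, heE, heS, hbad⟩ := hg
            refine ⟨e, ?_, ?_⟩
            · rw [mem_filter, hF, mem_filter]
              refine ⟨⟨heE, ?_⟩, heS⟩
              by_contra hc
              refine hb.2 e heE ?_ hbad
              intro v hv
              rw [hS', mem_erase]
              exact ⟨fun h => hc (h ▸ hv), heS hv⟩
            · rw [mem_filter]
              exact ⟨mem_univ _, hb.2, hbad⟩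
        have h2 := card_le_card hsub
        have h3 := h2.trans ((card_union_le _ _).trans (Nat.add_le_add_left card_biUnion_le _))
        exact_mod_cast h3
      have heach : ∀ e ∈ F.filter (fun e => supp e ⊆ S), ((univ.filter fun b : V → Fin D =>
            good E supp bad S' b ∧ bad e b).card : ℝ) ≤ 4 * cnt E supp bad S' * p e := by
        intro e he
        rw [mem_filter, hF, mem_filter] at he
        obtain ⟨⟨heE, hce⟩, heS⟩ := he
        set R := S' \ supp e with hR
        have hle : ((univ.filter fun b : V → Fin D => good E supp bad S' b ∧ bad e b).card : ℝ) ≤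
            ((univ.filter fun b : V → Fin D => bad e b ∧ good E supp bad R b).card : ℝ) := by
          have : (univ.filter fun b : V → Fin D => good E supp bad S' b ∧ bad e b) ⊆
              (univ.filter fun b : V → Fin D => bad e b ∧ good E supp bad R b) := by
            intro b hb
            rw [mem_filter] at hb ⊢
            exact ⟨mem_univ _, hb.2.2, fun e' he' hs => hb.2.1 e' he' (hs.trans sdiff_subset)⟩
          exact_mod_cast card_le_card this
        have hind := indep (D := D) (supp e) (fun b => bad e b) (fun b => good E supp bad R b)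
          (hdep e heE) (by
            intro b b' hbb
            unfold good
            have : ∀ e' ∈ E, supp e' ⊆ R → (bad e' b ↔ bad e' b') := by
              intro e' he' hs
              refine hdep e' he' b b' fun v hv => hbb v ?_
              have := hs hv
              rw [hR, mem_sdiff] at this
              exact this.2
            constructor
            · intro h e' he' hs hb'
              exact h e' he' hs ((this e' he' hs).2 hb')
            · intro h e' he' hs hb'
              exact h e' he' hs ((this e' he' hs).1 hb'))
        have hind' : ((univ.filter fun b : V → Fin D => bad e b ∧ good E supp bad R b).card : ℝ) *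
            ((univ : Finset (V → Fin D)).card : ℝ) =
            ((univ.filter fun b : V → Fin D => bad e b).card : ℝ) * cnt E supp bad R := by
          unfold cnt
          exact_mod_cast hind
        have hT' : (0 : ℝ) < ((univ : Finset (V → Fin D)).card : ℝ) := by exact_mod_cast hT
        have hR4 : cnt E supp bad R ≤ 4 * cnt E supp bad S' := by
          have h5 := ih S' hcard' R sdiff_subset
          have h6 : (S' \ R).card ≤ 2 := by
            have h7 : S' \ R ⊆ (supp e).erase c := by
              intro v hv
              rw [hR, mem_sdiff, mem_sdiff] at hv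
              push Not at hv
              rw [mem_erase]
              exact ⟨fun h => hcS' (h ▸ hv.1), hv.2 hv.1⟩
            have h8 := card_le_card h7
            rw [card_erase_of_mem hce, hsupp e heE] at h8
            exact h8
          have h9 : (2 : ℝ) ^ (S' \ R).card ≤ 4 := by
            calc (2 : ℝ) ^ (S' \ R).card ≤ 2 ^ 2 := pow_le_pow_right₀ (by norm_num) h6
              _ = 4 := by norm_num
          have h10 : (0 : ℝ) ≤ cnt E supp bad S' := Nat.cast_nonneg _
          nlinarith
        have hbadp := hp e heE
        have hcR : (0 : ℝ) ≤ cnt E supp bad R := Nat.cast_nonneg _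
        have hcS'0 : (0 : ℝ) ≤ cnt E supp bad S' := Nat.cast_nonneg _
        have hbad0 : (0 : ℝ) ≤ ((univ.filter fun b : V → Fin D => bad e b).card : ℝ) :=
          Nat.cast_nonneg _
        have hpe : 0 ≤ p e := by
          by_contra hneg
          push Not at hneg
          have : p e * ((univ : Finset (V → Fin D)).card : ℝ) < 0 := mul_neg_of_neg_of_pos hneg hT'
          linarith
        refine hle.trans ?_
        have h11 : ((univ.filter fun b : V → Fin D => bad e b ∧ good E supp bad R b).card : ℝ) *
            ((univ : Finset (V → Fin D)).card : ℝ) ≤ (4 * cnt E supp bad S' * p e) *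
            ((univ : Finset (V → Fin D)).card : ℝ) := by
          rw [hind']
          calc ((univ.filter fun b : V → Fin D => bad e b).card : ℝ) * cnt E supp bad R
              ≤ (p e * ((univ : Finset (V → Fin D)).card : ℝ)) * cnt E supp bad R :=
                mul_le_mul_of_nonneg_right hbadp hcR
            _ ≤ (p e * ((univ : Finset (V → Fin D)).card : ℝ)) * (4 * cnt E supp bad S') :=
                mul_le_mul_of_nonneg_left hR4 (by positivity)
            _ = _ := by ring
        exact le_of_mul_le_mul_right h11 hT'
      have hsum' : ∑ e ∈ F.filter (fun e => supp e ⊆ S), ((univ.filter fun b : V → Fin D =>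
            good E supp bad S' b ∧ bad e b).card : ℝ) ≤ cnt E supp bad S' / 2 := by
        have hcS'0 : (0 : ℝ) ≤ cnt E supp bad S' := Nat.cast_nonneg _
        have hT' : (0 : ℝ) < ((univ : Finset (V → Fin D)).card : ℝ) := by exact_mod_cast hT
        have hp0 : ∀ e ∈ E, 0 ≤ p e := by
          intro e he
          by_contra hneg
          push Not at hneg
          have h1 : p e * ((univ : Finset (V → Fin D)).card : ℝ) < 0 :=
            mul_neg_of_neg_of_pos hneg hT'
          have h2 := hp e he
          have h3 : (0 : ℝ) ≤ ((univ.filter fun b : V → Fin D => bad e b).card : ℝ) :=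
            Nat.cast_nonneg _
          linarith
        calc _ ≤ ∑ e ∈ F.filter (fun e => supp e ⊆ S), 4 * cnt E supp bad S' * p e :=
              sum_le_sum heach
          _ = 4 * cnt E supp bad S' * ∑ e ∈ F.filter (fun e => supp e ⊆ S), p e := by
              rw [mul_sum]
          _ ≤ 4 * cnt E supp bad S' * ∑ e ∈ F, p e := by
              apply mul_le_mul_of_nonneg_left _ (by positivity)
              apply sum_le_sum_of_subset_of_nonneg (filter_subset _ _)
              intro e he _
              rw [hF, mem_filter] at he
              exact hp0 e he.1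
          _ ≤ 4 * cnt E supp bad S' * (1 / 8) :=
              mul_le_mul_of_nonneg_left (hsum c) (by positivity)
          _ = cnt E supp bad S' / 2 := by ring
      linarith
    have hcardS : (S \ A).card = (S' \ A).card + 1 := by
      have : S \ A = insert c (S' \ A) := by
        ext v
        simp only [mem_sdiff, mem_insert, hS', mem_erase]
        constructor
        · rintro ⟨h1, h2⟩
          by_cases hv : v = c
          · exact Or.inl hv
          · exact Or.inr ⟨⟨hv, h1⟩, h2⟩
        · rintro (h | ⟨⟨_, h1⟩, h2⟩)
          · rw [h]; exact ⟨hcS, hcA⟩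
          · exact ⟨h1, h2⟩
      rw [this, card_insert_of_notMem (fun h => hcS' (mem_sdiff.1 h).1)]
    rw [hcardS, pow_succ]
    have h0 : (0 : ℝ) < 2 ^ (S' \ A).card := by positivity
    calc cnt E supp bad A ≤ 2 ^ (S' \ A).card * cnt E supp bad S' := h1
      _ ≤ 2 ^ (S' \ A).card * (2 * cnt E supp bad S) := mul_le_mul_of_nonneg_left key h0.le
      _ = _ := by ring

open Classical in
/-- **Local lemma** for events depending on three coordinates. -/
theorem exists_good (E : Finset ι) (supp : ι → Finset V) (bad : ι → (V → Fin D) → Prop) (p : ι → ℝ)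
    (hD : 0 < D)
    (hdep : ∀ e ∈ E, ∀ b b' : V → Fin D, (∀ v ∈ supp e, b v = b' v) → (bad e b ↔ bad e b'))
    (hsupp : ∀ e ∈ E, (supp e).card = 3)
    (hp : ∀ e ∈ E, ((univ.filter fun b : V → Fin D => bad e b).card : ℝ) ≤
      p e * (univ : Finset (V → Fin D)).card)
    (hsum : ∀ v : V, ∑ e ∈ E.filter (fun e => v ∈ supp e), p e ≤ 1 / 8) :
    ∃ b : V → Fin D, ∀ e ∈ E, ¬ bad e b := by
  have hne : Nonempty (V → Fin D) := ⟨fun _ => ⟨0, hD⟩⟩
  have hT : 0 < (univ : Finset (V → Fin D)).card := Finset.card_pos.2 univ_nonempty
  have h := step E supp bad p hdep hsupp hp hsum hT (univ : Finset V).card univ le_rfl ∅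
    (empty_subset _)
  have h0 : cnt E supp bad ∅ = ((univ : Finset (V → Fin D)).card : ℝ) := by
    unfold cnt
    congr 2
    rw [filter_eq_self]
    intro b _ e he hs
    have h1 := hsupp e he
    rw [subset_empty.1 hs] at h1
    simp at h1
  rw [h0] at h
  have hT' : (0 : ℝ) < ((univ : Finset (V → Fin D)).card : ℝ) := by exact_mod_cast hT
  have h2 : 0 < cnt E supp bad (univ : Finset V) := by
    by_contra hcon
    push Not at hcon
    have h3 : (0 : ℝ) < 2 ^ ((univ : Finset V) \ ∅).card := by positivity
    have : 2 ^ ((univ : Finset V) \ ∅).card * cnt E supp bad (univ : Finset V) ≤ 0 :=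
      mul_nonpos_of_nonneg_of_nonpos h3.le hcon
    linarith
  unfold cnt at h2
  have h3 : 0 < (univ.filter fun b : V → Fin D => good E supp bad univ b).card := by
    exact_mod_cast h2
  obtain ⟨b, hb⟩ := Finset.card_pos.1 h3
  rw [mem_filter] at hb
  exact ⟨b, fun e he => hb.2 e he (subset_univ _)⟩

end Pool.Agent.T6.H94.LLL
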