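import Mathlib
import Pool.Agent.T6.H94.LLL3

set_option autoImplicit false

namespace Pool.Agent.T6.H94.NoThree

open Finset

/-! ### residue classes in an interval -/

lemma card_dvd_le (D q : ℕ) (hq : 0 < q) (r : ℤ) :
    ((univ.filter fun α : Fin D => (q : ℤ) ∣ r + (α : ℕ)).card : ℝ) ≤ D / q + 1 := by
  have h1 : (univ.filter fun α : Fin D => (q : ℤ) ∣ r + (α : ℕ)).card ≤
      ((Ico (0 : ℤ) D).filter fun x => x ≡ -r [ZMOD q]).card := by
    refine card_le_card_of_injOn (fun α : Fin D => ((α : ℕ) : ℤ)) ?_ ?_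
    · intro α hα
      simp only [coe_filter, mem_univ, true_and] at hα
      have hα' : (q : ℤ) ∣ r + (α : ℕ) := hα
      simp only [coe_filter, mem_Ico]
      refine ⟨⟨Int.natCast_nonneg _, by exact_mod_cast α.2⟩, ?_⟩
      apply Int.ModEq.symm
      rw [Int.modEq_iff_dvd]
      have : ((α : ℕ) : ℤ) - -r = r + (α : ℕ) := by ring
      rw [this]
      exact hα'
    · intro α _ β _ h
      have h' : ((α : ℕ) : ℤ) = ((β : ℕ) : ℤ) := h
      exact Fin.ext (by exact_mod_cast h')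
  have h2 := Int.Ico_filter_modEq_card (0 : ℤ) (D : ℤ) (r := (q : ℤ)) (by exact_mod_cast hq) (-r)
  have hqQ : (0 : ℚ) < q := by exact_mod_cast hq
  have h3 : (((Ico (0 : ℤ) D).filter fun x => x ≡ -r [ZMOD q]).card : ℤ) ≤ ⌊(D : ℚ) / q⌋ + 1 := by
    rw [h2]
    apply max_le
    · have e1 : (((D : ℤ) : ℚ) - ((-r : ℤ) : ℚ)) / ((q : ℤ) : ℚ) =
          (D : ℚ) / q + (r : ℚ) / q := by push_cast; ring
      have e2 : (((0 : ℤ) : ℚ) - ((-r : ℤ) : ℚ)) / ((q : ℤ) : ℚ) = (r : ℚ) / q := by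
        push_cast; ring
      rw [e1, e2]
      have h4 : ⌈(D : ℚ) / q + (r : ℚ) / q⌉ ≤ ⌊(D : ℚ) / q⌋ + 1 + ⌈(r : ℚ) / q⌉ := by
        rw [Int.ceil_le]
        push_cast
        have := Int.lt_floor_add_one ((D : ℚ) / q)
        have := Int.le_ceil ((r : ℚ) / q)
        linarith
      omega
    · have : 0 ≤ ⌊(D : ℚ) / q⌋ := Int.floor_nonneg.2 (by positivity)
      omega
  have h5 : (((Ico (0 : ℤ) D).filter fun x => x ≡ -r [ZMOD q]).card : ℝ) ≤ D / q + 1 := by
    have h6 : ((((Ico (0 : ℤ) D).filter fun x => x ≡ -r [ZMOD q]).card : ℤ) : ℚ) ≤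
        (D : ℚ) / q + 1 := by
      have := Int.floor_le ((D : ℚ) / q)
      have h7 : ((((Ico (0 : ℤ) D).filter fun x => x ≡ -r [ZMOD q]).card : ℤ) : ℚ) ≤
        ((⌊(D : ℚ) / q⌋ + 1 : ℤ) : ℚ) := by exact_mod_cast h3
      push_cast at h7 ⊢
      linarith
    have h8 := (Rat.cast_le (K := ℝ)).2 h6
    push_cast at h8
    exact h8
  calc _ ≤ (((Ico (0 : ℤ) D).filter fun x => x ≡ -r [ZMOD q]).card : ℝ) := by exact_mod_cast h1
    _ ≤ _ := h5

/-! ### number of collinear triples -/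

/-- the values `X + α`, `Y + β`, `Z + γ` at abscissas with differences `s`, `t` are on a line -/
def Coll (s t : ℕ) (X Y Z : ℤ) {D : ℕ} (α β γ : Fin D) : Prop :=
  (t : ℤ) * ((Y + (β : ℕ)) - (X + (α : ℕ))) = (s : ℤ) * ((Z + (γ : ℕ)) - (Y + (β : ℕ)))

open Classical in
lemma card_coll (D s t : ℕ) (hs : 0 < s) (ht : 0 < t) (X Y Z : ℤ) :
    ((univ.filter fun w : Fin D × Fin D × Fin D => Coll s t X Y Z w.1 w.2.1 w.2.2).card : ℝ) ≤
      D * (D * ((Nat.gcd s t : ℝ) / (max s t : ℕ)) + 1) := by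
  set g := Nat.gcd s t with hg
  have hg0 : 0 < g := Nat.gcd_pos_of_pos_left _ hs
  obtain ⟨s', hs'⟩ : g ∣ s := Nat.gcd_dvd_left _ _
  obtain ⟨t', ht'⟩ : g ∣ t := Nat.gcd_dvd_right _ _
  have hs'0 : 0 < s' := by
    rcases Nat.eq_zero_or_pos s' with h | h
    · rw [h] at hs'; omega
    · exact h
  have ht'0 : 0 < t' := by
    rcases Nat.eq_zero_or_pos t' with h | h
    · rw [h] at ht'; omega
    · exact h
  have hcop : Nat.Coprime s' t' := by
    have h1 := Nat.coprime_div_gcd_div_gcd (m := s) (n := t) (by rw [← hg]; exact hg0)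
    rw [← hg] at h1
    have e1 : s / g = s' := by rw [hs']; exact Nat.mul_div_cancel_left _ hg0
    have e2 : t / g = t' := by rw [ht']; exact Nat.mul_div_cancel_left _ hg0
    rwa [e1, e2] at h1
  have hcopZ : IsCoprime (s' : ℤ) (t' : ℤ) := Nat.isCoprime_iff_coprime.2 hcop
  have hred : ∀ w : Fin D × Fin D × Fin D, Coll s t X Y Z w.1 w.2.1 w.2.2 →
      (t' : ℤ) * ((Y + (w.2.1 : ℕ)) - (X + (w.1 : ℕ))) =
        (s' : ℤ) * ((Z + (w.2.2 : ℕ)) - (Y + (w.2.1 : ℕ))) := by
    intro w hw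
    unfold Coll at hw
    rw [hs', ht'] at hw
    push_cast at hw
    have hgZ : (g : ℤ) ≠ 0 := by exact_mod_cast hg0.ne'
    apply mul_left_cancel₀ hgZ
    linear_combination hw
  -- first bound
  have hA : ((univ.filter fun w : Fin D × Fin D × Fin D => Coll s t X Y Z w.1 w.2.1 w.2.2).card : ℝ) ≤
      D * (D / s' + 1) := by
    have h1 : (univ.filter fun w : Fin D × Fin D × Fin D => Coll s t X Y Z w.1 w.2.1 w.2.2).card ≤
        ∑ β : Fin D, (univ.filter fun α : Fin D => (s' : ℤ) ∣ (X - Y - (β : ℕ)) + (α : ℕ)).card := by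
      rw [← card_sigma]
      refine card_le_card_of_injOn (fun w => (⟨w.2.1, w.1⟩ : (_ : Fin D) × Fin D)) ?_ ?_
      · intro w hw
        simp only [coe_filter, mem_univ, true_and] at hw
        have hw' := hred w hw
        simp only [coe_sigma, coe_univ, coe_filter, mem_univ, true_and, Set.mem_sigma_iff,
          Set.mem_univ]
        have hd : (s' : ℤ) ∣ (t' : ℤ) * ((Y + (w.2.1 : ℕ)) - (X + (w.1 : ℕ))) :=
          ⟨_, hw'⟩
        have hd2 := hcopZ.dvd_of_dvd_mul_left hd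
        have e : X - Y - ((w.2.1 : ℕ) : ℤ) + ((w.1 : ℕ) : ℤ) =
          -((Y + (w.2.1 : ℕ)) - (X + (w.1 : ℕ))) := by ring
        change (s' : ℤ) ∣ X - Y - ((w.2.1 : ℕ) : ℤ) + ((w.1 : ℕ) : ℤ)
        rw [e]
        exact (dvd_neg).2 hd2
      · rintro ⟨α, β, γ⟩ hw ⟨α', β', γ'⟩ hw' h
        simp only [coe_filter, mem_univ, true_and] at hw hw'
        have h1 := hred _ hw
        have h2 := hred _ hw'
        simp only at h1 h2
        have h3 : (⟨β, α⟩ : (_ : Fin D) × Fin D) = ⟨β', α'⟩ := h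
        obtain ⟨rfl, h5⟩ := Sigma.mk.inj_iff.1 h3
        have h6 : α = α' := eq_of_heq h5
        subst h6
        have h7 : (s' : ℤ) * ((Z + (γ : ℕ)) - (Y + (β : ℕ))) =
            (s' : ℤ) * ((Z + (γ' : ℕ)) - (Y + (β : ℕ))) := by rw [← h1, ← h2]
        have hs'Z : (s' : ℤ) ≠ 0 := by exact_mod_cast hs'0.ne'
        have h8 := mul_left_cancel₀ hs'Z h7
        have h9 : ((γ : ℕ) : ℤ) = ((γ' : ℕ) : ℤ) := by linarith
        have h10 : γ = γ' := Fin.ext (by exact_mod_cast h9)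
        rw [h10]
    calc _ ≤ ((∑ β : Fin D, (univ.filter fun α : Fin D =>
          (s' : ℤ) ∣ (X - Y - (β : ℕ)) + (α : ℕ)).card : ℕ) : ℝ) := by exact_mod_cast h1
      _ = ∑ β : Fin D, ((univ.filter fun α : Fin D =>
          (s' : ℤ) ∣ (X - Y - (β : ℕ)) + (α : ℕ)).card : ℝ) := by push_cast; rfl
      _ ≤ ∑ _β : Fin D, ((D : ℝ) / s' + 1) := sum_le_sum fun β _ => card_dvd_le D s' hs'0 _
      _ = D * (D / s' + 1) := by simp; ring
  -- second bound
  have hB : ((univ.filter fun w : Fin D × Fin D × Fin D => Coll s t X Y Z w.1 w.2.1 w.2.2).card : ℝ) ≤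
      D * (D / t' + 1) := by
    have h1 : (univ.filter fun w : Fin D × Fin D × Fin D => Coll s t X Y Z w.1 w.2.1 w.2.2).card ≤
        ∑ β : Fin D, (univ.filter fun γ : Fin D => (t' : ℤ) ∣ (Z - Y - (β : ℕ)) + (γ : ℕ)).card := by
      rw [← card_sigma]
      refine card_le_card_of_injOn (fun w => (⟨w.2.1, w.2.2⟩ : (_ : Fin D) × Fin D)) ?_ ?_
      · intro w hw
        simp only [coe_filter, mem_univ, true_and] at hw
        have hw' := hred w hw
        simp only [coe_sigma, coe_univ, coe_filter, mem_univ, true_and, Set.mem_sigma_iff,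
          Set.mem_univ]
        have hd : (t' : ℤ) ∣ (s' : ℤ) * ((Z + (w.2.2 : ℕ)) - (Y + (w.2.1 : ℕ))) :=
          ⟨_, hw'.symm⟩
        have hd2 := hcopZ.symm.dvd_of_dvd_mul_left hd
        have e : Z - Y - ((w.2.1 : ℕ) : ℤ) + ((w.2.2 : ℕ) : ℤ) =
          ((Z + (w.2.2 : ℕ)) - (Y + (w.2.1 : ℕ))) := by ring
        change (t' : ℤ) ∣ Z - Y - ((w.2.1 : ℕ) : ℤ) + ((w.2.2 : ℕ) : ℤ)
        rw [e]
        exact hd2
      · rintro ⟨α, β, γ⟩ hw ⟨α', β', γ'⟩ hw' h
        simp only [coe_filter, mem_univ, true_and] at hw hw'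
        have h1 := hred _ hw
        have h2 := hred _ hw'
        simp only at h1 h2
        have h3 : (⟨β, γ⟩ : (_ : Fin D) × Fin D) = ⟨β', γ'⟩ := h
        obtain ⟨rfl, h5⟩ := Sigma.mk.inj_iff.1 h3
        have h6 : γ = γ' := eq_of_heq h5
        subst h6
        have h7 : (t' : ℤ) * ((Y + (β : ℕ)) - (X + (α : ℕ))) =
            (t' : ℤ) * ((Y + (β : ℕ)) - (X + (α' : ℕ))) := by rw [h1, h2]
        have ht'Z : (t' : ℤ) ≠ 0 := by exact_mod_cast ht'0.ne'
        have h8 := mul_left_cancel₀ ht'Z h7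
        have h9 : ((α : ℕ) : ℤ) = ((α' : ℕ) : ℤ) := by linarith
        have h10 : α = α' := Fin.ext (by exact_mod_cast h9)
        rw [h10]
    calc _ ≤ ((∑ β : Fin D, (univ.filter fun γ : Fin D =>
          (t' : ℤ) ∣ (Z - Y - (β : ℕ)) + (γ : ℕ)).card : ℕ) : ℝ) := by exact_mod_cast h1
      _ = ∑ β : Fin D, ((univ.filter fun γ : Fin D =>
          (t' : ℤ) ∣ (Z - Y - (β : ℕ)) + (γ : ℕ)).card : ℝ) := by push_cast; rfl
      _ ≤ ∑ _β : Fin D, ((D : ℝ) / t' + 1) := sum_le_sum fun β _ => card_dvd_le D t' ht'0 _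
      _ = D * (D / t' + 1) := by simp; ring
  have hgR : (0 : ℝ) < g := by exact_mod_cast hg0
  have es : (D : ℝ) / s' = D * ((g : ℝ) / s) := by
    rw [hs']
    push_cast
    have : (s' : ℝ) ≠ 0 := by exact_mod_cast hs'0.ne'
    field_simp
  have et : (D : ℝ) / t' = D * ((g : ℝ) / t) := by
    rw [ht']
    push_cast
    have : (t' : ℝ) ≠ 0 := by exact_mod_cast ht'0.ne'
    field_simp
  rcases le_total s t with h | h
  · rw [max_eq_right h, ← et]
    exact hB
  · rw [max_eq_left h, ← es]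
    exact hA

/-! ### from triples to functions -/

section transfer

variable {V : Type*} [Fintype V] [DecidableEq V] {D : ℕ}

/-- change the values at `i`, `j`, `k` -/
def upd (i j k : V) (b : V → Fin D) (w : Fin D × Fin D × Fin D) : V → Fin D :=
  Function.update (Function.update (Function.update b i w.1) j w.2.1) k w.2.2

open Classical in
lemma card_transfer (i j k : V) (hij : i ≠ j) (hik : i ≠ k) (hjk : j ≠ k)
    (Pr : Fin D → Fin D → Fin D → Prop) :
    (univ.filter fun b : V → Fin D => Pr (b i) (b j) (b k)).card * D ^ 3 =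
      (univ.filter fun w : Fin D × Fin D × Fin D => Pr w.1 w.2.1 w.2.2).card *
        (univ : Finset (V → Fin D)).card := by
  have hc : D ^ 3 = (univ : Finset (Fin D × Fin D × Fin D)).card := by
    simp [Fintype.card_prod]; ring
  rw [hc, ← card_product, ← card_product]
  have e1 : ∀ (b : V → Fin D) w, upd i j k b w i = w.1 := by
    intro b w
    simp [upd, hij, hik]
  have e2 : ∀ (b : V → Fin D) w, upd i j k b w j = w.2.1 := by
    intro b w
    simp [upd, hjk]
  have e3 : ∀ (b : V → Fin D) w, upd i j k b w k = w.2.2 := by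
    intro b w
    simp [upd]
  have e4 : ∀ (b : V → Fin D) w, upd i j k (upd i j k b w) (b i, b j, b k) = b := by
    intro b w
    funext v
    by_cases hk : v = k
    · subst hk; simp [upd]
    by_cases hj : v = j
    · subst hj; simp [upd, hjk]
    by_cases hi : v = i
    · subst hi; simp [upd, hij, hik]
    simp [upd, hk, hj, hi]
  refine card_nbij' (fun x => ((x.1 i, x.1 j, x.1 k), upd i j k x.1 x.2))
    (fun x => (upd i j k x.2 x.1, (x.2 i, x.2 j, x.2 k))) ?_ ?_ ?_ ?_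
  · rintro ⟨b, w⟩ hb
    simp only [coe_product, coe_filter, mem_univ, true_and, coe_univ, Set.mem_prod,
      Set.mem_univ, and_true] at hb ⊢
    exact hb
  · rintro ⟨w, b⟩ hb
    simp only [coe_product, coe_filter, mem_univ, true_and, coe_univ, Set.mem_prod,
      Set.mem_univ, and_true] at hb ⊢
    change Pr (upd i j k b w i) (upd i j k b w j) (upd i j k b w k)
    rw [e1, e2, e3]
    exact hb
  · rintro ⟨b, w⟩ _
    simp only [e1, e2, e3, e4]
  · rintro ⟨w, b⟩ _
    simp only [e1, e2, e3, e4]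

end transfer

end Pool.Agent.T6.H94.NoThree
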