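import Mathlib

set_option autoImplicit false

namespace Pool.Agent.T6.H94.NoThree

open Finset

lemma sum_min_le (R : ℝ) (hR : 0 ≤ R) (M : ℕ) :
    ∑ q ∈ Icc 1 M, min 1 (R ^ 2 / (q : ℝ) ^ 2) ≤ 3 * R := by
  set k := ⌊R⌋₊ with hk
  have hkR : (k : ℝ) ≤ R := Nat.floor_le hR
  have hkR' : R < k + 1 := Nat.lt_floor_add_one R
  have hsub : Icc 1 M ⊆ Icc 1 k ∪ Ioo k (M + 1) := by
    intro q hq
    rw [mem_Icc] at hq
    rw [mem_union, mem_Icc, mem_Ioo]
    omega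
  have h0 : ∀ q : ℕ, 0 ≤ min 1 (R ^ 2 / (q : ℝ) ^ 2) := fun q => le_min zero_le_one (by positivity)
  calc ∑ q ∈ Icc 1 M, min 1 (R ^ 2 / (q : ℝ) ^ 2)
      ≤ ∑ q ∈ Icc 1 k ∪ Ioo k (M + 1), min 1 (R ^ 2 / (q : ℝ) ^ 2) :=
        sum_le_sum_of_subset_of_nonneg hsub fun q _ _ => h0 q
    _ ≤ ∑ q ∈ Icc 1 k, min 1 (R ^ 2 / (q : ℝ) ^ 2) +
        ∑ q ∈ Ioo k (M + 1), min 1 (R ^ 2 / (q : ℝ) ^ 2) := by
        rw [← sum_union_inter]
        have := sum_nonneg (s := Icc 1 k ∩ Ioo k (M + 1)) fun q _ => h0 q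
        linarith
    _ ≤ ∑ q ∈ Icc 1 k, (1 : ℝ) + ∑ q ∈ Ioo k (M + 1), R ^ 2 * ((q : ℝ) ^ 2)⁻¹ := by
        apply add_le_add
        · exact sum_le_sum fun q _ => min_le_left _ _
        · exact sum_le_sum fun q _ => (min_le_right _ _).trans (by rw [div_eq_mul_inv])
    _ ≤ R + R ^ 2 * (2 / (k + 1)) := by
        rw [← mul_sum]
        apply add_le_add
        · simpa using hkR
        · exact mul_le_mul_of_nonneg_left (sum_Ioo_inv_sq_le k (M + 1)) (by positivity)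
    _ ≤ 3 * R := by
        have hk1 : (0 : ℝ) < k + 1 := by positivity
        have : R ^ 2 * (2 / (k + 1)) ≤ 2 * R := by
          rw [mul_div_assoc', div_le_iff₀ hk1]
          nlinarith
        linarith

/-- pairs with `p q g² ≤ M` -/
def PS (M g : ℕ) : Finset (ℕ × ℕ) :=
  (Icc 1 M ×ˢ Icc 1 M).filter fun x => x.1 * x.2 * g ^ 2 ≤ M

lemma half (M g : ℕ) (hg : 1 ≤ g) :
    ∑ x ∈ (PS M g).filter (fun x => x.1 ≤ x.2), 1 / (x.2 : ℝ) ≤ 3 * (Real.sqrt M / g) := by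
  have hgR : (0 : ℝ) < g := by exact_mod_cast hg
  have h1 : ∑ x ∈ (PS M g).filter (fun x => x.1 ≤ x.2), 1 / (x.2 : ℝ) =
      ∑ q ∈ Icc 1 M, ∑ p ∈ (Icc 1 M).filter (fun p => p * q * g ^ 2 ≤ M ∧ p ≤ q), 1 / (q : ℝ) := by
    rw [PS, filter_filter, sum_filter, sum_product_right]
    refine sum_congr rfl fun q _ => ?_
    rw [sum_filter]
  rw [h1]
  refine le_trans (sum_le_sum fun q hq => ?_) (sum_min_le (Real.sqrt M / g) (by positivity) M)
  rw [mem_Icc] at hq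
  have hq0 : (0 : ℝ) < q := by exact_mod_cast hq.1
  rw [sum_const, nsmul_eq_mul, div_pow, Real.sq_sqrt (Nat.cast_nonneg _)]
  have hc1 : (((Icc 1 M).filter (fun p => p * q * g ^ 2 ≤ M ∧ p ≤ q)).card : ℝ) ≤ q := by
    have : (Icc 1 M).filter (fun p => p * q * g ^ 2 ≤ M ∧ p ≤ q) ⊆ Icc 1 q := by
      intro p hp
      rw [mem_filter, mem_Icc] at hp
      rw [mem_Icc]
      exact ⟨hp.1.1, hp.2.2⟩
    have := card_le_card this
    rw [Nat.card_Icc, Nat.add_sub_cancel] at this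
    exact_mod_cast this
  have hc2 : (((Icc 1 M).filter (fun p => p * q * g ^ 2 ≤ M ∧ p ≤ q)).card : ℝ) ≤
      M / (q * g ^ 2) := by
    have hpos : 0 < q * g ^ 2 := Nat.mul_pos hq.1 (by positivity)
    have : (Icc 1 M).filter (fun p => p * q * g ^ 2 ≤ M ∧ p ≤ q) ⊆ Icc 1 (M / (q * g ^ 2)) := by
      intro p hp
      rw [mem_filter, mem_Icc] at hp
      rw [mem_Icc, Nat.le_div_iff_mul_le hpos]
      exact ⟨hp.1.1, by rw [← mul_assoc]; exact hp.2.1⟩
    have := card_le_card this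
    rw [Nat.card_Icc, Nat.add_sub_cancel] at this
    calc (((Icc 1 M).filter (fun p => p * q * g ^ 2 ≤ M ∧ p ≤ q)).card : ℝ)
        ≤ ((M / (q * g ^ 2) : ℕ) : ℝ) := by exact_mod_cast this
      _ ≤ (M : ℝ) / ((q * g ^ 2 : ℕ) : ℝ) := Nat.cast_div_le
      _ = M / (q * g ^ 2) := by push_cast; rfl
  apply le_min
  · rw [mul_one_div, div_le_one hq0]
    exact hc1
  · calc _ ≤ (M / (q * g ^ 2) : ℝ) * (1 / q) := mul_le_mul_of_nonneg_right hc2 (by positivity)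
      _ = M / g ^ 2 / q ^ 2 := by field_simp

lemma inner (M g : ℕ) (hg : 1 ≤ g) :
    ∑ x ∈ PS M g, 1 / ((max x.1 x.2 : ℕ) : ℝ) ≤ 6 * (Real.sqrt M / g) := by
  have h1 := half M g hg
  have h2 : ∑ x ∈ (PS M g).filter (fun x => x.2 ≤ x.1), 1 / (x.1 : ℝ) ≤ 3 * (Real.sqrt M / g) := by
    refine le_trans (le_of_eq ?_) h1
    refine sum_nbij' (fun x => (x.2, x.1)) (fun x => (x.2, x.1)) ?_ ?_ ?_ ?_ ?_
    · intro x hx
      simp only [PS, mem_filter, mem_product] at hx ⊢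
      exact ⟨⟨⟨hx.1.1.2, hx.1.1.1⟩, by rw [mul_comm x.2 x.1]; exact hx.1.2⟩, hx.2⟩
    · intro x hx
      simp only [PS, mem_filter, mem_product] at hx ⊢
      exact ⟨⟨⟨hx.1.1.2, hx.1.1.1⟩, by rw [mul_comm x.2 x.1]; exact hx.1.2⟩, hx.2⟩
    · intro x _; rfl
    · intro x _; rfl
    · intro x _; rfl
  have h3 : ∑ x ∈ PS M g, 1 / ((max x.1 x.2 : ℕ) : ℝ) ≤
      ∑ x ∈ (PS M g).filter (fun x => x.1 ≤ x.2), 1 / (x.2 : ℝ) +
      ∑ x ∈ (PS M g).filter (fun x => x.2 ≤ x.1), 1 / (x.1 : ℝ) := by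
    rw [sum_filter, sum_filter, ← sum_add_distrib]
    refine sum_le_sum fun x _ => ?_
    rcases le_total x.1 x.2 with h | h
    · rw [max_eq_right h, if_pos h]
      have : (0 : ℝ) ≤ if x.2 ≤ x.1 then 1 / (x.1 : ℝ) else 0 := by
        split_ifs <;> positivity
      linarith
    · rw [max_eq_left h, if_pos h]
      have : (0 : ℝ) ≤ if x.1 ≤ x.2 then 1 / (x.2 : ℝ) else 0 := by
        split_ifs <;> positivity
      linarith
  linarith

lemma sum_inv_le (M : ℕ) : ∑ g ∈ Icc 1 M, 1 / (g : ℝ) ≤ 1 + Real.log M := by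
  have h := harmonic_le_one_add_log M
  rw [harmonic_eq_sum_Icc] at h
  push_cast at h
  simpa using h

lemma gcd_sum (M : ℕ) :
    ∑ x ∈ PS M 1, (Nat.gcd x.1 x.2 : ℝ) / ((max x.1 x.2 : ℕ) : ℝ) ≤
      6 * Real.sqrt M * (1 + Real.log M) := by
  classical
  have h1 : ∑ x ∈ PS M 1, (Nat.gcd x.1 x.2 : ℝ) / ((max x.1 x.2 : ℕ) : ℝ) ≤
      ∑ g ∈ Icc 1 M, ∑ x ∈ PS M g, 1 / ((max x.1 x.2 : ℕ) : ℝ) := by
    rw [← sum_sigma (Icc 1 M) (fun g => PS M g)
      (fun y : (_ : ℕ) × (ℕ × ℕ) => 1 / ((max y.2.1 y.2.2 : ℕ) : ℝ))]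
    set F : ℕ × ℕ → (_ : ℕ) × (ℕ × ℕ) := fun x =>
      ⟨Nat.gcd x.1 x.2, (x.1 / Nat.gcd x.1 x.2, x.2 / Nat.gcd x.1 x.2)⟩ with hF
    have hpos : ∀ x ∈ PS M 1, 0 < x.1 ∧ 0 < x.2 ∧ x.1 * x.2 ≤ M := by
      intro x hx
      simp only [PS, mem_filter, mem_product, mem_Icc] at hx
      refine ⟨hx.1.1.1, hx.1.2.1, ?_⟩
      have := hx.2
      simpa using this
    have hinj : Set.InjOn F (PS M 1 : Set (ℕ × ℕ)) := by
      intro x hx y hy hxy
      have hx' := hpos x hx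
      have hy' := hpos y hy
      simp only [hF, Sigma.mk.injEq] at hxy
      obtain ⟨h1, h2⟩ := hxy
      have h3 := eq_of_heq h2
      rw [Prod.mk.injEq] at h3
      obtain ⟨h4, h5⟩ := h3
      have a1 := Nat.div_mul_cancel (Nat.gcd_dvd_left x.1 x.2)
      have a2 := Nat.div_mul_cancel (Nat.gcd_dvd_right x.1 x.2)
      have b1 := Nat.div_mul_cancel (Nat.gcd_dvd_left y.1 y.2)
      have b2 := Nat.div_mul_cancel (Nat.gcd_dvd_right y.1 y.2)
      ext
      · rw [← a1, ← b1, h4, h1]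
      · rw [← a2, ← b2, h5, h1]
    have heq : ∑ x ∈ PS M 1, (Nat.gcd x.1 x.2 : ℝ) / ((max x.1 x.2 : ℕ) : ℝ) =
        ∑ y ∈ (PS M 1).image F, 1 / ((max y.2.1 y.2.2 : ℕ) : ℝ) := by
      rw [sum_image hinj]
      refine sum_congr rfl fun x hx => ?_
      obtain ⟨hx1, hx2, _⟩ := hpos x hx
      simp only [hF]
      set g := Nat.gcd x.1 x.2 with hg
      have hg0 : 0 < g := Nat.gcd_pos_of_pos_left _ hx1
      obtain ⟨p, hp⟩ : g ∣ x.1 := Nat.gcd_dvd_left _ _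
      obtain ⟨q, hq⟩ : g ∣ x.2 := Nat.gcd_dvd_right _ _
      have e1 : x.1 / g = p := by rw [hp]; exact Nat.mul_div_cancel_left _ hg0
      have e2 : x.2 / g = q := by rw [hq]; exact Nat.mul_div_cancel_left _ hg0
      rw [e1, e2]
      have e3 : max x.1 x.2 = g * max p q := by
        rw [hp, hq]
        exact (Nat.mul_max_mul_left _ _ _)
      rw [e3]
      push_cast
      have hgR : (g : ℝ) ≠ 0 := by exact_mod_cast hg0.ne'
      have hp0 : 0 < p := Nat.pos_of_ne_zero (by rintro rfl; rw [mul_zero] at hp; omega)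
      have : (max (p : ℝ) (q : ℝ)) ≠ 0 := by
        have : (0 : ℝ) < p := by exact_mod_cast hp0
        exact (lt_max_of_lt_left this).ne'
      field_simp
    rw [heq]
    apply sum_le_sum_of_subset_of_nonneg
    · intro y hy
      rw [mem_image] at hy
      obtain ⟨x, hx, rfl⟩ := hy
      obtain ⟨hx1, hx2, hx3⟩ := hpos x hx
      simp only [hF]
      set g := Nat.gcd x.1 x.2 with hg
      have hg0 : 0 < g := Nat.gcd_pos_of_pos_left _ hx1
      obtain ⟨p, hp⟩ : g ∣ x.1 := Nat.gcd_dvd_left _ _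
      obtain ⟨q, hq⟩ : g ∣ x.2 := Nat.gcd_dvd_right _ _
      have e1 : x.1 / g = p := by rw [hp]; exact Nat.mul_div_cancel_left _ hg0
      have e2 : x.2 / g = q := by rw [hq]; exact Nat.mul_div_cancel_left _ hg0
      rw [e1, e2]
      have hp0 : 0 < p := Nat.pos_of_ne_zero (by rintro rfl; rw [mul_zero] at hp; omega)
      have hq0 : 0 < q := Nat.pos_of_ne_zero (by rintro rfl; rw [mul_zero] at hq; omega)
      have hM : p * q * g ^ 2 ≤ M := by
        calc p * q * g ^ 2 = (g * p) * (g * q) := by ring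
          _ = x.1 * x.2 := by rw [← hp, ← hq]
          _ ≤ M := hx3
      have hgg : 0 < g ^ 2 := by positivity
      simp only [mem_sigma, PS, mem_filter, mem_product, mem_Icc]
      refine ⟨⟨hg0, ?_⟩, ⟨⟨hp0, ?_⟩, ⟨hq0, ?_⟩⟩, hM⟩
      · calc g ≤ p * q * g ^ 2 := by nlinarith [Nat.mul_pos hp0 hq0]
          _ ≤ M := hM
      · calc p ≤ p * q * g ^ 2 := by
              have : p * 1 ≤ p * (q * g ^ 2) := Nat.mul_le_mul_left _ (Nat.mul_pos hq0 hgg)
              nlinarith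
          _ ≤ M := hM
      · calc q ≤ p * q * g ^ 2 := by
              have : q * 1 ≤ q * (p * g ^ 2) := Nat.mul_le_mul_left _ (Nat.mul_pos hp0 hgg)
              nlinarith
          _ ≤ M := hM
    · intro y _ _
      positivity
  have hS : (0 : ℝ) ≤ Real.sqrt M := Real.sqrt_nonneg _
  calc _ ≤ ∑ g ∈ Icc 1 M, ∑ x ∈ PS M g, 1 / ((max x.1 x.2 : ℕ) : ℝ) := h1
    _ ≤ ∑ g ∈ Icc 1 M, 6 * (Real.sqrt M / g) :=
        sum_le_sum fun g hg => inner M g (mem_Icc.1 hg).1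
    _ = 6 * Real.sqrt M * ∑ g ∈ Icc 1 M, 1 / (g : ℝ) := by
        rw [mul_sum]
        refine sum_congr rfl fun g _ => ?_
        ring
    _ ≤ _ := mul_le_mul_of_nonneg_left (sum_inv_le M) (by positivity)

lemma count_sum (M : ℕ) : ((PS M 1).card : ℝ) ≤ M * (1 + Real.log M) := by
  have h1 : (PS M 1).card = ∑ q ∈ Icc 1 M, ((Icc 1 M).filter (fun p => p * q ≤ M)).card := by
    have : (PS M 1) = (Icc 1 M ×ˢ Icc 1 M).filter fun x => x.1 * x.2 ≤ M := by
      unfold PS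
      refine filter_congr fun x _ => ?_
      simp
    rw [this, card_filter, sum_product_right]
    refine sum_congr rfl fun q _ => ?_
    rw [card_filter]
  rw [h1]
  push_cast
  calc ∑ q ∈ Icc 1 M, (((Icc 1 M).filter (fun p => p * q ≤ M)).card : ℝ)
      ≤ ∑ q ∈ Icc 1 M, (M : ℝ) * (1 / q) := by
        refine sum_le_sum fun q hq => ?_
        rw [mem_Icc] at hq
        have : (Icc 1 M).filter (fun p => p * q ≤ M) ⊆ Icc 1 (M / q) := by
          intro p hp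
          rw [mem_filter, mem_Icc] at hp
          rw [mem_Icc, Nat.le_div_iff_mul_le hq.1]
          exact ⟨hp.1.1, hp.2⟩
        have := card_le_card this
        rw [Nat.card_Icc, Nat.add_sub_cancel] at this
        calc (((Icc 1 M).filter (fun p => p * q ≤ M)).card : ℝ) ≤ ((M / q : ℕ) : ℝ) := by
              exact_mod_cast this
          _ ≤ (M : ℝ) / q := Nat.cast_div_le
          _ = _ := by ring
    _ = M * ∑ q ∈ Icc 1 M, 1 / (q : ℝ) := by rw [mul_sum]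
    _ ≤ _ := mul_le_mul_of_nonneg_left (sum_inv_le M) (Nat.cast_nonneg _)

end Pool.Agent.T6.H94.NoThree
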