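import Mathlib
import Pool.Agent.T6.H94.LLL3
import Pool.Agent.T6.H94.NoThree
import Pool.Agent.T6.H94.NoThreeSum

set_option autoImplicit false

namespace Pool.Agent.T6.H94.NoThree

open Finset

/-- the base sequence -/
def f (m D j : ℕ) : ℤ := ((D * j + j ^ 2 / m : ℕ) : ℤ)

lemma no_coll (m D i s t : ℕ) (hm : 0 < m) (hs : 0 < s) (hst : m * D < s * t)
    (α β γ : Fin D) : ¬ Coll s t (f m D i) (f m D (i + s)) (f m D (i + s + t)) α β γ := by
  intro h
  unfold Coll f at h
  have hi : i ^ 2 < m * (i ^ 2 / m + 1) := by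
    have := Nat.lt_mul_div_succ (i ^ 2) hm
    simpa using this
  have hj : m * ((i + s) ^ 2 / m) ≤ (i + s) ^ 2 := Nat.mul_div_le _ _
  have hk : (i + s + t) ^ 2 < m * ((i + s + t) ^ 2 / m + 1) := by
    have := Nat.lt_mul_div_succ ((i + s + t) ^ 2) hm
    simpa using this
  set qi := i ^ 2 / m with hqi
  set qj := (i + s) ^ 2 / m with hqj
  set qk := (i + s + t) ^ 2 / m with hqk
  have hiZ : (i : ℤ) ^ 2 + 1 ≤ m * (qi + 1) := by exact_mod_cast hi
  have hjZ : (m : ℤ) * qj ≤ (i + s) ^ 2 := by exact_mod_cast hj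
  have hkZ : ((i : ℤ) + s + t) ^ 2 + 1 ≤ m * (qk + 1) := by exact_mod_cast hk
  have hstZ : (m : ℤ) * D + 1 ≤ s * t := by exact_mod_cast hst
  have hsZ : (1 : ℤ) ≤ s := by exact_mod_cast hs
  have htZ : (0 : ℤ) ≤ t := by positivity
  have hmZ : (1 : ℤ) ≤ m := by exact_mod_cast hm
  have hα : (0 : ℤ) ≤ (α : ℕ) := Int.natCast_nonneg _
  have hγ : (0 : ℤ) ≤ (γ : ℕ) := Int.natCast_nonneg _
  have hβ : ((β : ℕ) : ℤ) + 1 ≤ D := by exact_mod_cast β.2
  push_cast at h
  have h1 : (t : ℤ) * qi + s * qk - (s + t) * qj =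
      (s + t) * (β : ℕ) - t * (α : ℕ) - s * (γ : ℕ) := by linear_combination -h
  have h2 : (t : ℤ) * qi + s * qk - (s + t) * qj ≤ (s + t) * (D - 1) := by
    rw [h1]
    have a1 : (0 : ℤ) ≤ t * (α : ℕ) := mul_nonneg htZ hα
    have a2 : (0 : ℤ) ≤ s * (γ : ℕ) := mul_nonneg (by linarith) hγ
    have a3 : ((s : ℤ) + t) * (β : ℕ) ≤ (s + t) * (D - 1) :=
      mul_le_mul_of_nonneg_left (by linarith) (by linarith)
    linarith
  have h3 : (m : ℤ) * ((t : ℤ) * qi + s * qk - (s + t) * qj) ≤ m * ((s + t) * (D - 1)) :=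
    mul_le_mul_of_nonneg_left h2 (by linarith)
  have h4 : (t : ℤ) * (i ^ 2 + 1 - m) ≤ t * (m * qi) := mul_le_mul_of_nonneg_left (by linarith) htZ
  have h5 : (s : ℤ) * ((i + s + t) ^ 2 + 1 - m) ≤ s * (m * qk) :=
    mul_le_mul_of_nonneg_left (by linarith) (by linarith)
  have h6 : ((s : ℤ) + t) * (m * qj) ≤ (s + t) * (i + s) ^ 2 :=
    mul_le_mul_of_nonneg_left hjZ (by linarith)
  have h7 : ((s : ℤ) + t) * (s * t) ≤ (s + t) * (m * D - 1) := by nlinarith
  have h8 : (s : ℤ) * t ≤ m * D - 1 := le_of_mul_le_mul_left h7 (by linarith)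
  linarith

section assembly

variable (N m D : ℕ)

/-- triples of columns -/
abbrev Ev := Fin (N + 1) × Fin (N + 1) × Fin (N + 1)

/-- the differences of a triple of columns -/
def F (e : Ev N) : ℕ × ℕ := (e.2.1.val - e.1.val, e.2.2.val - e.2.1.val)

/-- the probability bound -/
noncomputable def W (D : ℕ) (x : ℕ × ℕ) : ℝ :=
  ((Nat.gcd x.1 x.2 : ℝ) / ((max x.1 x.2 : ℕ) : ℝ)) / D + 1 / (D : ℝ) ^ 2

open Classical in
/-- the weight of a triple of columns -/
noncomputable def pe (e : Ev N) : ℝ := if (F N e).1 * (F N e).2 ≤ m * D then W D (F N e) else 0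

lemma W_nonneg (D : ℕ) (x : ℕ × ℕ) : 0 ≤ W D x := by unfold W; positivity

lemma role (E' : Finset (Ev N)) (hE' : ∀ e ∈ E', e.1 < e.2.1 ∧ e.2.1 < e.2.2)
    (hinj : Set.InjOn (F N) (E' : Set (Ev N))) :
    ∑ e ∈ E', pe N m D e ≤ ∑ x ∈ PS (m * D) 1, W D x := by
  classical
  have h1 : ∑ e ∈ E', pe N m D e =
      ∑ e ∈ E'.filter (fun e => (F N e).1 * (F N e).2 ≤ m * D), W D (F N e) := by
    rw [sum_filter]
    refine sum_congr rfl fun e _ => ?_
    unfold pe
    rfl
  rw [h1, ← sum_image (g := F N) (f := fun x => W D x)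
    (fun x hx y hy h => hinj (filter_subset _ _ hx) (filter_subset _ _ hy) h)]
  apply sum_le_sum_of_subset_of_nonneg
  · intro x hx
    rw [mem_image] at hx
    obtain ⟨e, he, rfl⟩ := hx
    rw [mem_filter] at he
    obtain ⟨h2, h3⟩ := hE' e he.1
    have h4 : 1 ≤ (F N e).1 := by
      unfold F
      have : e.1.val < e.2.1.val := h2
      simp only
      omega
    have h5 : 1 ≤ (F N e).2 := by
      unfold F
      have : e.2.1.val < e.2.2.val := h3
      simp only
      omega
    have h6 := he.2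
    simp only [PS, mem_filter, mem_product, mem_Icc]
    refine ⟨⟨⟨h4, ?_⟩, ⟨h5, ?_⟩⟩, by simpa using h6⟩
    · nlinarith
    · nlinarith
  · intro x _ _
    exact W_nonneg D x

lemma sum_W (M D : ℕ) :
    ∑ x ∈ PS M 1, W D x ≤ (6 * Real.sqrt M * (1 + Real.log M)) / D +
      (M * (1 + Real.log M)) / (D : ℝ) ^ 2 := by
  unfold W
  rw [sum_add_distrib, ← sum_div, sum_const, nsmul_eq_mul, mul_one_div]
  apply add_le_add
  · exact div_le_div_of_nonneg_right (gcd_sum M) (Nat.cast_nonneg _)
  · exact div_le_div_of_nonneg_right (count_sum M) (by positivity)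

lemma split3 (v : Fin (N + 1)) (E : Finset (Ev N)) (q : Ev N → Prop) [DecidablePred q]
    (g : Ev N → ℝ) (h0 : ∀ e, 0 ≤ g e) (hq : ∀ e, q e → e.1 = v ∨ e.2.1 = v ∨ e.2.2 = v) :
    ∑ e ∈ E.filter q, g e ≤ ∑ e ∈ E.filter (fun e => e.1 = v), g e +
      ∑ e ∈ E.filter (fun e => e.2.1 = v), g e + ∑ e ∈ E.filter (fun e => e.2.2 = v), g e := by
  rw [sum_filter, sum_filter, sum_filter, sum_filter, ← sum_add_distrib, ← sum_add_distrib]
  refine sum_le_sum fun e _ => ?_
  have h0 := h0 e
  have x1 : 0 ≤ if e.1 = v then g e else 0 := by split_ifs <;> simp [h0]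
  have x2 : 0 ≤ if e.2.1 = v then g e else 0 := by split_ifs <;> simp [h0]
  have x3 : 0 ≤ if e.2.2 = v then g e else 0 := by split_ifs <;> simp [h0]
  by_cases hv : q e
  · rw [if_pos hv]
    rcases hq e hv with h | h | h
    · rw [if_pos h]; linarith
    · rw [if_pos h]; linarith
    · rw [if_pos h]; linarith
  · rw [if_neg hv]
    linarith

theorem exists_seq (hm : 0 < m) (hD : 0 < D)
    (hcond : 3 * ((6 * Real.sqrt (m * D : ℕ) * (1 + Real.log (m * D : ℕ))) / D +
      ((m * D : ℕ) * (1 + Real.log (m * D : ℕ))) / (D : ℝ) ^ 2) ≤ 1 / 8) :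
    ∃ a : ℕ → ℤ, (∀ j, 1 ≤ j → j ≤ N → 0 < a j) ∧ (∀ i j, i < j → j ≤ N → a i < a j) ∧
      (∀ j, j ≤ N → a j ≤ ((D * j + j ^ 2 / m + D : ℕ) : ℤ)) ∧
      ∀ i j k : ℕ, i < j → j < k → k ≤ N →
        ((k : ℤ) - j) * (a j - a i) ≠ ((j : ℤ) - i) * (a k - a j) := by
  classical
  set E : Finset (Ev N) := univ.filter fun e => e.1 < e.2.1 ∧ e.2.1 < e.2.2 with hE
  set supp : Ev N → Finset (Fin (N + 1)) := fun e => {e.1, e.2.1, e.2.2} with hsupp
  set bad : Ev N → (Fin (N + 1) → Fin D) → Prop := fun e b =>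
    Coll (F N e).1 (F N e).2 (f m D e.1.val) (f m D e.2.1.val) (f m D e.2.2.val)
      (b e.1) (b e.2.1) (b e.2.2) with hbad
  have hDR : (0 : ℝ) < D := by exact_mod_cast hD
  obtain ⟨b, hb⟩ := LLL.exists_good (V := Fin (N + 1)) (D := D) E supp bad (pe N m D) hD
    (by
      intro e he b b' hbb
      simp only [hbad]
      rw [hbb e.1 (by simp [hsupp]), hbb e.2.1 (by simp [hsupp]), hbb e.2.2 (by simp [hsupp])])
    (by
      intro e he
      rw [hE, mem_filter] at he
      obtain ⟨_, h1, h2⟩ := he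
      have h3 : e.1 ≠ e.2.1 := ne_of_lt h1
      have h4 : e.2.1 ≠ e.2.2 := ne_of_lt h2
      have h5 : e.1 ≠ e.2.2 := ne_of_lt (h1.trans h2)
      simp only [hsupp]
      rw [card_insert_of_notMem (by simp [h3, h5]), card_insert_of_notMem (by simp [h4]),
        card_singleton])
    (by
      intro e he
      rw [hE, mem_filter] at he
      obtain ⟨_, h1, h2⟩ := he
      have h1' : e.1.val < e.2.1.val := h1
      have h2' : e.2.1.val < e.2.2.val := h2
      have hs : 0 < (F N e).1 := by unfold F; simp only; omega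
      have ht : 0 < (F N e).2 := by unfold F; simp only; omega
      unfold pe
      split_ifs with hcase
      · have h3 := card_transfer (D := D) e.1 e.2.1 e.2.2 (ne_of_lt h1) (ne_of_lt (h1.trans h2))
          (ne_of_lt h2) (fun α β γ => Coll (F N e).1 (F N e).2 (f m D e.1.val) (f m D e.2.1.val)
            (f m D e.2.2.val) α β γ)
        have h4 := card_coll D (F N e).1 (F N e).2 hs ht (f m D e.1.val) (f m D e.2.1.val)
            (f m D e.2.2.val)
        have h3R : ((univ.filter fun b : Fin (N + 1) → Fin D => bad e b).card : ℝ) * D ^ 3 =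
            ((univ.filter fun w : Fin D × Fin D × Fin D => Coll (F N e).1 (F N e).2
              (f m D e.1.val) (f m D e.2.1.val) (f m D e.2.2.val) w.1 w.2.1 w.2.2).card : ℝ) *
            ((univ : Finset (Fin (N + 1) → Fin D)).card : ℝ) := by
          exact_mod_cast h3
        have hD3 : (0 : ℝ) < (D : ℝ) ^ 3 := by positivity
        apply le_of_mul_le_mul_right _ hD3
        rw [h3R]
        calc _ ≤ (D * (D * ((Nat.gcd (F N e).1 (F N e).2 : ℝ) /
              (max (F N e).1 (F N e).2 : ℕ)) + 1)) *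
              ((univ : Finset (Fin (N + 1) → Fin D)).card : ℝ) :=
              mul_le_mul_of_nonneg_right h4 (Nat.cast_nonneg _)
          _ = _ := by
              unfold W
              field_simp
      · have : (univ.filter fun b : Fin (N + 1) → Fin D => bad e b) = ∅ := by
          rw [filter_eq_empty_iff]
          intro b _ hbb
          simp only [hbad] at hbb
          push Not at hcase
          have e1 : e.2.1.val = e.1.val + (F N e).1 := by unfold F; simp only; omega
          have e2 : e.2.2.val = e.1.val + (F N e).1 + (F N e).2 := by unfold F; simp only; omega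
          rw [e2, e1] at hbb
          exact no_coll m D e.1.val (F N e).1 (F N e).2 hm hs hcase _ _ _ hbb
        rw [this]
        simp)
    (by
      intro v
      have hW := sum_W (m * D) D
      have hr : ∀ E' : Finset (Ev N), E' ⊆ E → Set.InjOn (F N) (E' : Set (Ev N)) →
          ∑ e ∈ E', pe N m D e ≤ ∑ x ∈ PS (m * D) 1, W D x := fun E' hE' hinj =>
        role N m D E' (fun e he => by
          have := hE' he
          rw [hE, mem_filter] at this
          exact this.2) hinj
      have hlt : ∀ e ∈ E, e.1.val < e.2.1.val ∧ e.2.1.val < e.2.2.val := by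
        intro e he
        rw [hE, mem_filter] at he
        exact he.2
      have r1 := hr (E.filter fun e => e.1 = v) (filter_subset _ _) (by
        intro e he e' he' h
        rw [mem_coe, mem_filter] at he he'
        have a1 := hlt e he.1
        have a2 := hlt e' he'.1
        have b1 : e.1.val = v.val := by rw [he.2]
        have b2 : e'.1.val = v.val := by rw [he'.2]
        unfold F at h
        rw [Prod.mk.injEq] at h
        have c1 : e.1 = e'.1 := Fin.ext (by omega)
        have c2 : e.2.1 = e'.2.1 := Fin.ext (by omega)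
        have c3 : e.2.2 = e'.2.2 := Fin.ext (by omega)
        exact Prod.ext c1 (Prod.ext c2 c3))
      have r2 := hr (E.filter fun e => e.2.1 = v) (filter_subset _ _) (by
        intro e he e' he' h
        rw [mem_coe, mem_filter] at he he'
        have a1 := hlt e he.1
        have a2 := hlt e' he'.1
        have b1 : e.2.1.val = v.val := by rw [he.2]
        have b2 : e'.2.1.val = v.val := by rw [he'.2]
        unfold F at h
        rw [Prod.mk.injEq] at h
        have c1 : e.1 = e'.1 := Fin.ext (by omega)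
        have c2 : e.2.1 = e'.2.1 := Fin.ext (by omega)
        have c3 : e.2.2 = e'.2.2 := Fin.ext (by omega)
        exact Prod.ext c1 (Prod.ext c2 c3))
      have r3 := hr (E.filter fun e => e.2.2 = v) (filter_subset _ _) (by
        intro e he e' he' h
        rw [mem_coe, mem_filter] at he he'
        have a1 := hlt e he.1
        have a2 := hlt e' he'.1
        have b1 : e.2.2.val = v.val := by rw [he.2]
        have b2 : e'.2.2.val = v.val := by rw [he'.2]
        unfold F at h
        rw [Prod.mk.injEq] at h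
        have c1 : e.1 = e'.1 := Fin.ext (by omega)
        have c2 : e.2.1 = e'.2.1 := Fin.ext (by omega)
        have c3 : e.2.2 = e'.2.2 := Fin.ext (by omega)
        exact Prod.ext c1 (Prod.ext c2 c3))
      have hsplit := split3 N v E (fun e => v ∈ supp e) (pe N m D) (by
          intro e
          unfold pe
          split_ifs
          · exact W_nonneg _ _
          · exact le_rfl) (by
          intro e h
          simp only [hsupp, mem_insert, mem_singleton] at h
          rcases h with h | h | h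
          · exact Or.inl h.symm
          · exact Or.inr (Or.inl h.symm)
          · exact Or.inr (Or.inr h.symm))
      linarith)
  -- the sequence
  set a : ℕ → ℤ := fun j => f m D j + (if h : j < N + 1 then ((b ⟨j, h⟩ : ℕ) : ℤ) else 0) with ha
  have hval : ∀ j (h : j < N + 1), a j = f m D j + ((b ⟨j, h⟩ : ℕ) : ℤ) := by
    intro j h
    simp only [ha]
    rw [dif_pos h]
  have hstep : ∀ i j, i < j → j ≤ N → a i < a j := by
    intro i j hij hj
    rw [hval i (by omega), hval j (by omega)]
    have h1 : (((b ⟨i, by omega⟩ : Fin D) : ℕ) : ℤ) + 1 ≤ D := by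
      exact_mod_cast (b ⟨i, by omega⟩).2
    have h2 : (0 : ℤ) ≤ ((b ⟨j, by omega⟩ : ℕ) : ℤ) := Int.natCast_nonneg _
    have h3 : D * i + i ^ 2 / m + D ≤ D * j + j ^ 2 / m := by
      have h4 : D * (i + 1) ≤ D * j := Nat.mul_le_mul_left _ hij
      have h5 : i ^ 2 / m ≤ j ^ 2 / m := Nat.div_le_div_right (Nat.pow_le_pow_left hij.le 2)
      nlinarith
    unfold f
    have h6 : ((D * i + i ^ 2 / m : ℕ) : ℤ) + D ≤ ((D * j + j ^ 2 / m : ℕ) : ℤ) := by
      exact_mod_cast h3
    linarith
  refine ⟨a, ?_, hstep, ?_, ?_⟩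
  · intro j hj hjN
    rw [hval j (by omega)]
    have h1 : (0 : ℤ) ≤ ((b ⟨j, by omega⟩ : ℕ) : ℤ) := Int.natCast_nonneg _
    have h2 : 0 < D * j + j ^ 2 / m := by
      exact Nat.lt_of_lt_of_le (Nat.mul_pos hD hj) (Nat.le_add_right _ _)
    unfold f
    have : (0 : ℤ) < ((D * j + j ^ 2 / m : ℕ) : ℤ) := by exact_mod_cast h2
    linarith
  · intro j hjN
    rw [hval j (by omega)]
    have h1 : (((b ⟨j, by omega⟩ : Fin D) : ℕ) : ℤ) + 1 ≤ D := by
      exact_mod_cast (b ⟨j, by omega⟩).2
    unfold f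
    push_cast
    linarith
  · intro i j k hij hjk hk heq
    have he : ((⟨i, by omega⟩, ⟨j, by omega⟩, ⟨k, by omega⟩) : Ev N) ∈ E := by
      rw [hE, mem_filter]
      exact ⟨mem_univ _, hij, hjk⟩
    refine hb _ he ?_
    simp only [hbad]
    unfold Coll F
    simp only
    rw [hval i (by omega), hval j (by omega), hval k (by omega)] at heq
    rw [Nat.cast_sub hij.le, Nat.cast_sub hjk.le]
    exact heq

end assembly

end Pool.Agent.T6.H94.NoThree
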